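import Mathlib

set_option autoImplicit false

namespace Pool.Agent.Results.MP_9fa5c3_co.TwoThreeCover

open SimpleGraph

/-- The complete graph on the `2 * m` vertices `Fin m × Bool` with the edges of the perfect
matching `{(i, false), (i, true)}` deleted. -/
def CP (m : ℕ) : SimpleGraph (Fin m × Bool) where
  Adj u v := u.1 ≠ v.1
  symm := ⟨fun _ _ h => h.symm⟩
  loopless := ⟨fun _ h => h rfl⟩

theorem CP_adj {m : ℕ} (u v : Fin m × Bool) : (CP m).Adj u v ↔ u.1 ≠ v.1 := Iff.rfl

/-- All edges of `H` have the same colour. -/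
def Mono {m : ℕ} (col : Sym2 (Fin m × Bool) → Bool) (H : (CP m).Subgraph) : Prop :=
  ∃ c : Bool, ∀ u v, H.Adj u v → col s(u, v) = c

/-- A `(p, q)`-cover of the 2-coloured graph `CP m`. -/
def HasCover {m : ℕ} (col : Sym2 (Fin m × Bool) → Bool) (p q : ℕ∞) : Prop :=
  ∃ H₁ H₂ : (CP m).Subgraph, Mono col H₁ ∧ Mono col H₂ ∧ H₁.verts.Nonempty ∧ H₂.verts.Nonempty ∧
    H₁.coe.ediam ≤ p ∧ H₂.coe.ediam ≤ q ∧ H₁.verts ∪ H₂.verts = Set.univ

/-- The subgraph of colour `c` induced on `S`. -/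
def sub {m : ℕ} (col : Sym2 (Fin m × Bool) → Bool) (c : Bool) (S : Set (Fin m × Bool)) :
    (CP m).Subgraph where
  verts := S
  Adj u v := u ∈ S ∧ v ∈ S ∧ u.1 ≠ v.1 ∧ col s(u, v) = c
  adj_sub := fun h => (CP_adj _ _).2 h.2.2.1
  edge_vert := fun h => h.1
  symm := ⟨fun u v h => ⟨h.2.1, h.1, h.2.2.1.symm, by rw [Sym2.eq_swap]; exact h.2.2.2⟩⟩

theorem mono_sub {m : ℕ} (col : Sym2 (Fin m × Bool) → Bool) (c : Bool)
    (S : Set (Fin m × Bool)) : Mono col (sub col c S) := ⟨c, fun _ _ h => h.2.2.2⟩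

theorem ediam_two {W : Type} (G : SimpleGraph W) (q : W) (h : ∀ u, G.edist q u ≤ 1) :
    G.ediam ≤ 2 := by
  rw [ediam_le_iff]
  intro u v
  have h1 : G.edist u v ≤ G.edist u q + G.edist q v := SimpleGraph.edist_triangle
  have h2 : G.edist u q ≤ 1 := by rw [SimpleGraph.edist_comm]; exact h u
  calc G.edist u v ≤ G.edist u q + G.edist q v := h1
    _ ≤ 1 + 1 := add_le_add h2 (h v)
    _ = 2 := by norm_num

theorem ediam_three {W : Type} (G : SimpleGraph W) (q q' : W)
    (h : ∀ u, u ≠ q' → G.edist q u ≤ 1) (h' : G.edist q q' ≤ 2) : G.ediam ≤ 3 := by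
  rw [ediam_le_iff]
  intro u v
  have h1 : G.edist u v ≤ G.edist u q + G.edist q v := SimpleGraph.edist_triangle
  by_cases hu : u = q'
  · by_cases hv : v = q'
    · rw [hu, hv, SimpleGraph.edist_self]; simp
    · have h2 : G.edist u q ≤ 2 := by rw [SimpleGraph.edist_comm, hu]; exact h'
      calc G.edist u v ≤ G.edist u q + G.edist q v := h1
        _ ≤ 2 + 1 := add_le_add h2 (h v hv)
        _ = 3 := by norm_num
  · have h2 : G.edist u q ≤ 1 := by rw [SimpleGraph.edist_comm]; exact h u hu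
    have h3 : G.edist q v ≤ 2 := by
      by_cases hv : v = q'
      · rw [hv]; exact h'
      · exact (h v hv).trans (by norm_num)
    calc G.edist u v ≤ G.edist u q + G.edist q v := h1
      _ ≤ 1 + 2 := add_le_add h2 h3
      _ = 3 := by norm_num

theorem edist_sub_one {m : ℕ} (col : Sym2 (Fin m × Bool) → Bool) (c : Bool)
    (S : Set (Fin m × Bool)) (u v : (sub col c S).verts)
    (h : u = v ∨ (u.1.1 ≠ v.1.1 ∧ col s(u.1, v.1) = c)) : (sub col c S).coe.edist u v ≤ 1 := by
  rw [edist_le_one_iff_adj_or_eq]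
  rcases h with h | h
  · exact Or.inr h
  · exact Or.inl ⟨u.2, v.2, h.1, h.2⟩

/-- The closed star of `q` in colour `c`. -/
def star {m : ℕ} (col : Sym2 (Fin m × Bool) → Bool) (c : Bool) (q : Fin m × Bool) :
    Set (Fin m × Bool) := {u | u = q ∨ (q.1 ≠ u.1 ∧ col s(q, u) = c)}

theorem ediam_star {m : ℕ} (col : Sym2 (Fin m × Bool) → Bool) (c : Bool) (q : Fin m × Bool) :
    (sub col c (star col c q)).coe.ediam ≤ 2 := by
  refine ediam_two _ (⟨q, Or.inl rfl⟩ : (sub col c (star col c q)).verts) ?_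
  rintro ⟨u, hu⟩
  apply edist_sub_one
  rcases hu with hu | hu
  · left; subst hu; rfl
  · right; exact hu

/-- Every 2-coloured complete graph minus a perfect matching has a `(2, 3)`-cover. -/
theorem result (m : ℕ) (hm : 0 < m) (col : Sym2 (Fin m × Bool) → Bool) : HasCover col 2 3 := by
  have q : Fin m × Bool := (⟨0, hm⟩, false)
  obtain ⟨q', hq1, hq2⟩ : ∃ q' : Fin m × Bool, q'.1 = q.1 ∧ q' ≠ q :=
    ⟨(q.1, !q.2), rfl, by intro h; have := congrArg Prod.snd h; simp at this⟩
  have hpair : ∀ u : Fin m × Bool, u.1 = q.1 → u = q ∨ u = q' := by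
    rintro ⟨i, a⟩ hi
    obtain ⟨j, b⟩ := q
    obtain ⟨j', b'⟩ := q'
    simp only at hi hq1 hq2 ⊢
    subst hi
    subst hq1
    have hb : b' ≠ b := fun h => hq2 (by rw [h])
    cases a <;> cases b <;> cases b' <;> simp_all
  by_cases hp : ∃ p : Fin m × Bool, q.1 ≠ p.1 ∧ col s(q, p) = col s(q', p)
  · obtain ⟨p, hp1, hp2⟩ := hp
    refine ⟨sub col (!col s(q, p)) (star col (!col s(q, p)) q),
      sub col (col s(q, p)) (insert q' (star col (col s(q, p)) q)),
      mono_sub _ _ _, mono_sub _ _ _, ⟨q, Or.inl rfl⟩, ⟨q', Or.inl rfl⟩, ediam_star _ _ _, ?_, ?_⟩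
    · have hqS : q ∈ insert q' (star col (col s(q, p)) q) := Or.inr (Or.inl rfl)
      have hpS : p ∈ insert q' (star col (col s(q, p)) q) := Or.inr (Or.inr ⟨hp1, rfl⟩)
      have hq'S : q' ∈ insert q' (star col (col s(q, p)) q) := Or.inl rfl
      refine ediam_three _ ⟨q, hqS⟩ ⟨q', hq'S⟩ ?_ ?_
      · rintro ⟨u, hu⟩ hne
        apply edist_sub_one
        rcases hu with hu | hu | hu
        · exact absurd (Subtype.ext hu) hne
        · left; subst hu; rfl
        · right; exact hu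
      · have e1 : (sub col (col s(q, p)) (insert q' (star col (col s(q, p)) q))).coe.edist
            ⟨q, hqS⟩ ⟨p, hpS⟩ ≤ 1 := edist_sub_one _ _ _ _ _ (Or.inr ⟨hp1, rfl⟩)
        have e2 : (sub col (col s(q, p)) (insert q' (star col (col s(q, p)) q))).coe.edist
            ⟨p, hpS⟩ ⟨q', hq'S⟩ ≤ 1 := edist_sub_one _ _ _ _ _
              (Or.inr ⟨by rw [hq1]; exact hp1.symm, by rw [Sym2.eq_swap]; exact hp2.symm⟩)
        refine SimpleGraph.edist_triangle.trans ((add_le_add e1 e2).trans ?_)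
        norm_num
    · rw [Set.eq_univ_iff_forall]
      intro u
      by_cases hu : u.1 = q.1
      · rcases hpair u hu with h | h
        · exact Or.inl (Or.inl h)
        · exact Or.inr (Or.inl h)
      · by_cases hc : col s(q, u) = col s(q, p)
        · exact Or.inr (Or.inr (Or.inr ⟨fun h => hu h.symm, hc⟩))
        · refine Or.inl (Or.inr ⟨fun h => hu h.symm, ?_⟩)
          cases h1 : col s(q, u) <;> cases h2 : col s(q, p) <;> simp_all
  · push Not at hp
    refine ⟨sub col true (star col true q), sub col true (star col true q'),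
      mono_sub _ _ _, mono_sub _ _ _, ⟨q, Or.inl rfl⟩, ⟨q', Or.inl rfl⟩, ediam_star _ _ _,
      (ediam_star _ _ _).trans (by norm_num), ?_⟩
    rw [Set.eq_univ_iff_forall]
    intro u
    by_cases hu : u.1 = q.1
    · rcases hpair u hu with h | h
      · exact Or.inl (Or.inl h)
      · exact Or.inr (Or.inl h)
    · have h := hp u (fun h => hu h.symm)
      by_cases hc : col s(q, u) = true
      · exact Or.inl (Or.inr ⟨fun h => hu h.symm, hc⟩)
      · refine Or.inr (Or.inr ⟨fun h => hu (by rw [← h, hq1]), ?_⟩)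
        cases h1 : col s(q, u) <;> cases h2 : col s(q', u) <;> simp_all

end Pool.Agent.Results.MP_9fa5c3_co.TwoThreeCover
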